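import Mathlib
import Pool.Agent.R343.LT6

set_option autoImplicit false

/-!
# The height inequality for quadratic points with compressible coordinates

A word of letters is cut into `z` phrases (`LZ a N z`, Lempel and Ziv) if each phrase is a single
letter, or a (possibly empty) copy of a block that begins further to the left; the block may
overlap the phrase. For instance the word `u v ^ m w` has a number of phrases which does not depend
on `m`.

Let `f` be a polynomial of degree `n ≥ 3` with integral coefficients without repeated roots.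

1. For all bases `b ≥ 2`, all `z` and all `ε > 0` there is `C` such that

   `max(1, |x|) ^ (n - 2 - ε) ≤ C |D|`

   for all integers `x`, `s`, `D` with `f(x) = D s ^ 2 ≠ 0` whose digits in base `b` (from the first
   to the last one) form words with `z` phrases. There is no restriction on the lengths of the
   phrases and of their periods. For even `n = 2 g + 2` and squarefree `D` this is the inequality
   `m(∞, P) + h_K(P) ≤ d(P) + ε h(P) + O(1)` for the quadratic points `P = (x, s √D)` of the curve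
   `y ^ 2 = f(x)` of genus `g` and the divisor at infinity: the left hand side is
   `log |x| + (g - 1) log |x|`, and `d(P) = log |D| / 2` up to a constant.

2. The same for the values `x`, `s`, `D` of words with `z` phrases and integral letters of absolute
   value at most `B`, of length `N`, `N log b ≤ M (1 + log max(1, |x|))`.
-/

namespace Pool.Agent.Results.MP_6f1c57_nt.LempelZivQuadraticPoints

open Finset Pool.Agent.R343.LP Pool.Agent.R343.LT Polynomial

theorem digits (f : ℤ[X]) (hf : (f.map (Int.castRingHom ℚ)).Separable) (hn : 3 ≤ f.natDegree)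
    (b z : ℕ) (hb : 2 ≤ b) (ε : ℝ) (hε : 0 < ε) :
    ∃ C : ℝ, 0 < C ∧ ∀ x s D : ℤ, f.eval x = D * s ^ 2 → f.eval x ≠ 0 →
      LZDown b z x → LZDown b z s → LZDown b z D →
      (max 1 |(x : ℝ)|) ^ ((f.natDegree : ℝ) - 2 - ε) ≤ C * |(D : ℝ)| := by
  obtain ⟨n, hnn⟩ : ∃ n, n = f.natDegree := ⟨_, rfl⟩
  obtain ⟨A, hA⟩ : ∃ A : ℝ, A = ∑ k ∈ Finset.range (n + 1), |(f.coeff k : ℝ)| := ⟨_, rfl⟩
  have hA0 : 0 ≤ A := by
    rw [hA]
    exact Finset.sum_nonneg fun _ _ => abs_nonneg _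
  have hlb : 0 ≤ Real.log b := Real.log_nonneg (by
    have : 1 ≤ b := by omega
    exact_mod_cast this)
  have hlA : 0 ≤ Real.log (A + 1) := Real.log_nonneg (by linarith)
  obtain ⟨C, hC0, hC⟩ := vojLZ f hf hn b hb z b (Int.natCast_nonneg _)
    (Real.log b + Real.log (A + 1) + n + 1) ε (by positivity) hε
  refine ⟨C, hC0, ?_⟩
  intro x s D heq hne hx hs hD
  obtain ⟨Z, hZ⟩ : ∃ Z : ℝ, Z = max 1 |(x : ℝ)| := ⟨_, rfl⟩
  have hZ1 : 1 ≤ Z := by rw [hZ]; exact le_max_left _ _
  have hlZ : 0 ≤ Real.log Z := Real.log_nonneg hZ1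
  have hfx : |((f.eval x : ℤ) : ℝ)| ≤ (A + 1) * Z ^ n := by
    rw [eval_eq_sum_range, ← hnn]
    push_cast
    refine (Finset.abs_sum_le_sum_abs _ _).trans ?_
    calc ∑ k ∈ range (n + 1), |(f.coeff k : ℝ) * (x : ℝ) ^ k| ≤
          ∑ k ∈ range (n + 1), |(f.coeff k : ℝ)| * Z ^ n := by
          refine Finset.sum_le_sum fun k hk => ?_
          rw [abs_mul, abs_pow]
          refine mul_le_mul_of_nonneg_left ?_ (abs_nonneg _)
          calc |(x : ℝ)| ^ k ≤ Z ^ k := pow_le_pow_left₀ (abs_nonneg _) (by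
                rw [hZ]; exact le_max_right _ _) _
            _ ≤ Z ^ n := pow_le_pow_right₀ hZ1 (by have := Finset.mem_range.1 hk; omega)
      _ = A * Z ^ n := by rw [hA, Finset.sum_mul]
      _ ≤ (A + 1) * Z ^ n := by
          have : 0 ≤ Z ^ n := by positivity
          nlinarith
  have hD0 : D ≠ 0 := by
    rintro rfl
    rw [zero_mul] at heq
    exact hne heq
  have hs0 : s ≠ 0 := by
    rintro rfl
    rw [zero_pow two_ne_zero, mul_zero] at heq
    exact hne heq
  have hDR : (1 : ℝ) ≤ |(D : ℝ)| := by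
    have : 1 ≤ |D| := Int.one_le_abs hD0
    exact_mod_cast this
  have hsR : (1 : ℝ) ≤ |(s : ℝ)| := by
    have : 1 ≤ |s| := Int.one_le_abs hs0
    exact_mod_cast this
  have hfe : |((f.eval x : ℤ) : ℝ)| = |(D : ℝ)| * |(s : ℝ)| ^ 2 := by
    rw [heq]
    push_cast
    rw [abs_mul, abs_pow]
  have hDle : |(D : ℝ)| ≤ (A + 1) * Z ^ n := by
    rw [hfe] at hfx
    have : |(D : ℝ)| ≤ |(D : ℝ)| * |(s : ℝ)| ^ 2 := by
      have h1 : (1 : ℝ) ≤ |(s : ℝ)| ^ 2 := one_le_pow₀ hsR
      nlinarith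
    linarith
  have hsle : |(s : ℝ)| ≤ (A + 1) * Z ^ n := by
    rw [hfe] at hfx
    have : |(s : ℝ)| ≤ |(D : ℝ)| * |(s : ℝ)| ^ 2 := by
      have h1 : |(s : ℝ)| ≤ |(s : ℝ)| ^ 2 := by nlinarith
      nlinarith [sq_nonneg (s : ℝ)]
    linarith
  have hlog : ∀ y : ℤ, max 1 |(y : ℝ)| ≤ (A + 1) * Z ^ n →
      places b y * Real.log b ≤ (Real.log b + Real.log (A + 1) + n + 1) *
        (1 + Real.log (max 1 |(x : ℝ)|)) := by
    intro y hy
    rw [← hZ]
    have h1 := places_le hb y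
    have h2 := Real.log_le_log (by positivity) hy
    rw [Real.log_mul (by positivity) (by positivity), Real.log_pow] at h2
    have hn0 : (0 : ℝ) ≤ n := Nat.cast_nonneg _
    nlinarith [mul_nonneg hlb hlZ, mul_nonneg hlA hlZ, mul_nonneg hn0 hlZ]
  have hone : (1 : ℝ) ≤ (A + 1) * Z ^ n := le_trans hDR hDle
  refine hC x s D heq hne (hx.toInt hb (hlog x ?_)) (hs.toInt hb (hlog s (max_le hone hsle)))
    (hD.toInt hb (hlog D (max_le hone hDle)))
  rw [← hZ]
  calc Z = Z ^ 1 := (pow_one _).symm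
    _ ≤ Z ^ n := pow_le_pow_right₀ hZ1 (by omega)
    _ ≤ (A + 1) * Z ^ n := by
        have : 0 ≤ Z ^ n := by positivity
        nlinarith

/-- The result: (1) digits, (2) words of integral letters. -/
theorem result (f : ℤ[X]) (hf : (f.map (Int.castRingHom ℚ)).Separable) (hn : 3 ≤ f.natDegree) :
    (∀ b z : ℕ, 2 ≤ b → ∀ ε : ℝ, 0 < ε →
      ∃ C : ℝ, 0 < C ∧ ∀ x s D : ℤ, f.eval x = D * s ^ 2 → f.eval x ≠ 0 →
        LZDown b z x → LZDown b z s → LZDown b z D →
        (max 1 |(x : ℝ)|) ^ ((f.natDegree : ℝ) - 2 - ε) ≤ C * |(D : ℝ)|) ∧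
    (∀ b z : ℕ, 2 ≤ b → ∀ B : ℤ, 0 ≤ B → ∀ M ε : ℝ, 0 ≤ M → 0 < ε →
      ∃ C : ℝ, 0 < C ∧ ∀ x s D : ℤ, f.eval x = D * s ^ 2 → f.eval x ≠ 0 →
        LZInt b z B (M * (1 + Real.log (max 1 |(x : ℝ)|))) x →
        LZInt b z B (M * (1 + Real.log (max 1 |(x : ℝ)|))) s →
        LZInt b z B (M * (1 + Real.log (max 1 |(x : ℝ)|))) D →
        (max 1 |(x : ℝ)|) ^ ((f.natDegree : ℝ) - 2 - ε) ≤ C * |(D : ℝ)|) :=
  ⟨fun b z hb ε hε => digits f hf hn b z hb ε hε,
    fun b z hb B hB M ε hM hε => vojLZ f hf hn b hb z B hB M ε hM hε⟩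

end Pool.Agent.Results.MP_6f1c57_nt.LempelZivQuadraticPoints
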