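import Mathlib
import Pool.Agent.R405.AQ13
import Pool.Agent.R405.AQ14

set_option autoImplicit false

/-!
# Vojta's height inequality for quadratic points and all divisors on the projective line

Let `D` be an effective divisor without multiple points on the projective line over `ℚ`, `S` a
finite set of primes and `2 < κ < 4`. The conjecture says that
`m_S(D, x) ≤ κ h(x) + d(x) + C₀` for all but finitely many quadratic numbers `x`. There are about
`B ^ 6` quadratic numbers of height at most `log B`. We show that at most `O(B ^ (e + δ))` of them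
violate the inequality, where `e` is the larger of `2 (3 - κ)` and `2 (4 - κ) / 3`, whatever the
degree of `D` and the fields of definition of its points; and that
`m_S(D, x) ≤ (3 + ε) h(x) + O(1)` outside finitely many pencils which depend only on `D`.

Method: the subspace theorem for the minimal forms of `x` (outside finitely many pencils), a gap
principle in each quadratic field, uniform in the field, a count of the quadratic fields of small
discriminant, and a count in each pencil by the spacing of the rational numbers which parametrise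
it.
-/

namespace Pool.Agent.Results.MP_6f1c57_nt.QuadraticPointsAllDivisors

open Polynomial IntermediateField IsDedekindDomain NumberField

/-- The absolute logarithmic height `(log M(f)) / deg f` of the roots of an irreducible integral
polynomial `f` (`M` is the Mahler measure). -/
noncomputable def height (f : ℤ[X]) : ℝ :=
  Real.log (f.map (Int.castRingHom ℂ)).mahlerMeasure / f.natDegree

/-- The local height `log (max(|x|, 1) ^ q / |g(x)|)` of `x` for the absolute value `a` and the
divisor `D` of degree `q` of the binary form `Y ^ q g(X / Y)`: the zeros of `g`, and the point at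
infinity with multiplicity `q - deg g`. -/
noncomputable def localHeight {K : Type} [Field K] (a : K → ℝ) (g : ℤ[X]) (q : ℕ) (x : K) : ℝ :=
  Real.log (max (a x) 1 ^ q / a (aeval x g))

open Classical in
/-- The proximity function `m_S(D, x)` of the divisor `D` of `Y ^ q g(X / Y)`: with `K = ℚ(x)`, the
sum of the local heights of `x` at the infinite places `v` (with `mult v = [K_v : ℝ]`) and at the
primes of `K` above the primes of `S`, divided by `[K : ℚ]`. The absolute values are normalised so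
that the product formula holds: `|b|_v = N(v) ^ (- v(b))`. -/
noncomputable def proximity (S : Finset ℕ) (g : ℤ[X]) (q : ℕ) (x : ℂ) : ℝ :=
  if _ : NumberField ℚ⟮x⟯ then
    (∑ v : InfinitePlace ℚ⟮x⟯,
        (v.mult : ℝ) * localHeight (fun b => v b) g q (AdjoinSimple.gen ℚ x) +
      ∑ᶠ v ∈ {v : HeightOneSpectrum (𝓞 ℚ⟮x⟯) | ∃ p ∈ S, (p : 𝓞 ℚ⟮x⟯) ∈ v.asIdeal},
        localHeight (fun b => FinitePlace.mk v b) g q (AdjoinSimple.gen ℚ x)) /
      Module.finrank ℚ ℚ⟮x⟯
  else 0

open Classical in
/-- The logarithmic discriminant `d(x) = log |disc ℚ(x)| / [ℚ(x) : ℚ]`. -/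
noncomputable def logDisc (x : ℂ) : ℝ :=
  if _ : NumberField ℚ⟮x⟯ then
    Real.log |(NumberField.discr ℚ⟮x⟯ : ℝ)| / Module.finrank ℚ ℚ⟮x⟯ else 0

/-- The quadratic numbers `x` of height at most `log B` outside `D` which violate
`m_S(D, x) ≤ κ h(x) + d(x) + C₀`. -/
def exceptional (S : Finset ℕ) (g : ℤ[X]) (q : ℕ) (κ C₀ B : ℝ) : Set ℂ :=
  {x | ∃ f : ℤ[X], Irreducible f ∧ f.natDegree = 2 ∧ aeval x f = 0 ∧ aeval x g ≠ 0 ∧
    height f ≤ Real.log B ∧ κ * height f + logDisc x + C₀ < proximity S g q x}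

open Pool.Agent.TH876.QR Pool.Agent.R405.AQ in
theorem tot_eq {K : Type} [Field K] [NumberField K] (S : Finset ℕ)
    (hfin : (Pls K S).Finite) (g : ℤ[X]) (q : ℕ) (x : K) :
    Pool.Agent.R405.AQ.Tot g q S x = ∑ v : InfinitePlace K,
        (v.mult : ℝ) * localHeight (fun b => v b) g q x +
      ∑ᶠ v ∈ {v : HeightOneSpectrum (𝓞 K) | ∃ p ∈ S, (p : 𝓞 K) ∈ v.asIdeal},
        localHeight (fun b => FinitePlace.mk v b) g q x := by
  classical
  have hset : Pls K S = Sum.inl '' (Set.univ : Set (InfinitePlace K)) ∪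
      Sum.inr '' {v : HeightOneSpectrum (𝓞 K) | ∃ p ∈ S, (p : 𝓞 K) ∈ v.asIdeal} := by
    ext v
    rcases v with w | u
    · simp only [Pls, Set.mem_ofPred_eq, Set.mem_union, Set.mem_image]
      refine ⟨fun _ => Or.inl ⟨w, Set.mem_univ _, rfl⟩, fun _ u h => by simp at h⟩
    · simp only [Pls, Set.mem_ofPred_eq, Set.mem_union, Set.mem_image]
      constructor
      · intro h
        exact Or.inr ⟨u, h u rfl, rfl⟩
      · rintro (⟨w, _, h⟩ | ⟨w, h, h'⟩)
        · simp at h
        · intro u' h2
          rw [← h'] at h2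
          rw [← Sum.inr_injective h2]
          exact h
  have hf2 : (Sum.inr '' {v : HeightOneSpectrum (𝓞 K) | ∃ p ∈ S, (p : 𝓞 K) ∈ v.asIdeal} :
      Set (InfinitePlace K ⊕ HeightOneSpectrum (𝓞 K))).Finite := hfin.subset (by rw [hset]; exact Set.subset_union_right)
  unfold Pool.Agent.R405.AQ.Tot
  rw [hset, finsum_mem_union _ (Set.finite_univ.image _) hf2, finsum_mem_image
    Sum.inl_injective.injOn, finsum_mem_image Sum.inr_injective.injOn, finsum_mem_univ,
    finsum_eq_sum_of_fintype]
  · congr 1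
    refine finsum_mem_congr rfl fun v _ => ?_
    show (1 : ℝ) * _ = _
    rw [one_mul]
    rfl
  · rw [Set.disjoint_left]
    rintro v ⟨w, _, rfl⟩ ⟨u, _, h⟩
    simp at h

open Pool.Agent.R405.AQ in
/-- **Vojta's height inequality for quadratic points on the line.** Let `g` be an integral
polynomial which is squarefree over `ℚ`, and `q ≥ 1` with `q = deg g` or `q = deg g + 1`, so that
`D` is the divisor of the zeros of `g`, together with the point at infinity in the second case.

(1) For all finite sets `S` of primes and all real `2 < κ < 4`, `C₀` and `δ > 0` the following holds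
for all `B ≥ 1`: all but `C * B ^ (max (2 (3 - κ)) (2 (4 - κ) / 3) + δ)` quadratic numbers `x` of
height at most `log B` satisfy `m_S(D, x) ≤ κ h(x) + d(x) + C₀`.

(2) There are finitely many pencils `m 0 * c + m 1 * b + m 2 * a = 0`, depending only on `D`, such
that for all `S` and `ε > 0` one has `m_S(D, x) ≤ (3 + ε) h(x) + C` for all quadratic numbers `x`
whose minimal polynomial `a X ^ 2 + b X + c` lies in none of the pencils. -/
theorem result (g : ℤ[X]) (hg : Squarefree (g.map (Int.castRingHom ℚ))) (q : ℕ)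
    (hq : q = g.natDegree ∨ q = g.natDegree + 1) (hq1 : 1 ≤ q) :
    (∀ S : Finset ℕ, (∀ p ∈ S, p.Prime) → ∀ κ C₀ δ : ℝ, 2 < κ → κ < 4 → 0 < δ →
      ∃ C : ℝ, ∀ B : ℝ, 1 ≤ B → (exceptional S g q κ C₀ B).Finite ∧
        ((exceptional S g q κ C₀ B).ncard : ℝ) ≤
          C * B ^ (max (2 * (3 - κ)) (2 * (4 - κ) / 3) + δ)) ∧
    ∃ Z : Finset (Fin 3 → ℚ), (∀ m ∈ Z, m ≠ 0) ∧
      ∀ S : Finset ℕ, (∀ p ∈ S, p.Prime) → ∀ ε : ℝ, 0 < ε →
      ∃ C : ℝ, ∀ (x : ℂ) (f : ℤ[X]), Irreducible f → f.natDegree = 2 → aeval x f = 0 →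
        aeval x g ≠ 0 →
        (∀ m ∈ Z, m 0 * f.coeff 0 + m 1 * f.coeff 1 + m 2 * f.coeff 2 ≠ 0) →
        proximity S g q x ≤ (3 + ε) * height f + C := by
  obtain ⟨M, hM, hG, hi, D, rfl⟩ := exists_div g hg q hq
  -- the proximity function
  have hprox : ∀ (S : Finset ℕ), (∀ p ∈ S, p.Prime) → ∀ (x : ℂ) (f : ℤ[X]), Irreducible f →
      f.natDegree = 2 → aeval x f = 0 → ∀ (K0 : IntermediateField ℚ ℂ) (_ : NumberField K0),
      ℚ⟮x⟯ = K0 → ∀ hx : x ∈ K0,
      2 * proximity S D.g q x = Tot D.g q S (⟨x, hx⟩ : K0) := by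
    intro S hS x f h1 h2 h3 K0 hNF hK0 hx
    obtain ⟨hK, hfr⟩ := Pool.Agent.W223.VD.field_data (by norm_num) h1 h2 h3
    subst hK0
    unfold proximity
    rw [dif_pos hK, hfr]
    have h4 := tot_eq S (Pool.Agent.TH876.QR.places2 ℚ⟮x⟯ S hS).1 D.g q (AdjoinSimple.gen ℚ x)
    rw [← h4]
    have h5 : (⟨x, hx⟩ : ℚ⟮x⟯) = AdjoinSimple.gen ℚ x := rfl
    rw [h5]
    push_cast
    ring
  have hheight : ∀ f : ℤ[X], f.natDegree = 2 →
      Real.log (Pool.Agent.H813R3.Voj.mahler f) = 2 * height f := by
    intro f hf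
    unfold height
    rw [hf]
    show Real.log (f.map (Int.castRingHom ℂ)).mahlerMeasure = _
    push_cast
    ring
  refine ⟨?_, ?_⟩
  · intro S hS κ C₀ δ hκ2 hκ4 hδ
    obtain ⟨C, hC, hmain⟩ := main_count hi hq1 D S hS κ (2 * |C₀|) δ hκ2 hκ4 (by positivity) hδ
    refine ⟨C, fun B hB => ?_⟩
    refine Pool.Agent.H813R3.Voj.ncard_le_of_finset _ _ fun E hE => ?_
    refine hmain B E hB ?_
    intro x hx
    obtain ⟨f, h1, h2, h3, h4, h5, h6⟩ := hE hx
    refine ⟨f, h1, h2, h3, h4, ?_, ?_⟩
    · rw [hheight f h2]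
      linarith
    · intro K0 hNF hK0 hxK
      rw [← hprox S hS x f h1 h2 h3 K0 hNF hK0 hxK, hheight f h2]
      have hld : logDisc x = Pool.Agent.W223.VD.logDisc x := rfl
      rw [← hld]
      have h7 := neg_abs_le C₀
      linarith
  · obtain ⟨Z, hZ, hoff⟩ := off hi D
    refine ⟨Z, hZ, fun S hS ε hε => ?_⟩
    obtain ⟨C, hC, hmain⟩ := hoff S hS ε hε
    refine ⟨C, fun x f h1 h2 h3 h4 h5 => ?_⟩
    obtain ⟨hNF, -⟩ := Pool.Agent.W223.VD.field_data (by norm_num) h1 h2 h3
    have h6 := hmain x f h1 h2 h3 h4 (by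
      intro m hm
      rw [Fin.sum_univ_three]
      exact h5 m hm) ℚ⟮x⟯ hNF rfl (mem_adjoin_simple_self ℚ x)
    rw [← hprox S hS x f h1 h2 h3 ℚ⟮x⟯ hNF rfl (mem_adjoin_simple_self ℚ x), hheight f h2] at h6
    linarith

end Pool.Agent.Results.MP_6f1c57_nt.QuadraticPointsAllDivisors
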