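import Pool.Agent.R909.RandSets
import Pool.Agent.R479.DA.Lim
import Pool.Agent.Results.MP_6f1c57_nt.AllFieldsHeightInequality

/-!
# Vojta's height inequality on the fibres over random points

Let `A` be a Dedekind domain, finite over `ℚ[t]` (the functions of an affine curve, finite over the
`t`-line), let `a_1, …, a_q` be `q ≥ 3` distinct rational numbers and
`y_{j 0} = t - a_j, y_{j 1}, …` elements of the radical of `(t - a_j)`, for example generators. Let
`K` be a number field, `0 ≤ θ ≤ 2`, `γ ≥ 2 - 2 θ / q` and let `𝒜` be a random subset of `K` which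
contains `x` with probability `O (H (x) ^ (-γ))`. Almost surely the following holds for all `ε > 0`
and `c`: for all but finitely many `x ∈ 𝒜` ALL points `P` of the curve over `x`, over all number
fields `L ⊇ K`, and all finite sets `S` of primes satisfy
`m_S(F, P) + (2 - θ + (deg K_C) / N) h(x) ≤ d(L) + ε h(x) + ∑_{p ∈ S} log p + c`.
For `θ = 2` (and `γ ≥ 2 - 4 / q`, so `γ ≥ 2 / 3` for `q = 3`) this is Vojta's inequality.
-/

set_option autoImplicit false

namespace Pool.Agent.Results.MP_6f1c57_nt.RandomPoints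

open Filter Topology MeasureTheory Polynomial IsDedekindDomain NumberField
open Pool.Agent.Results.MP_6f1c57_nt.AllFieldsHeightInequality (height coord proximity logDisc
  degree Elts Exceptions)

/-- `x` belongs to the random set `𝒜` with probability at most `C * H (x) ^ (-γ)`, `H` the
(relative) multiplicative height of `K` -/
def Sparse {Ω K : Type} [Field K] [NumberField K] [MeasurableSpace Ω] (P : Measure Ω)
    (𝒜 : Ω → Set K) (γ C : ℝ) : Prop :=
  ∀ x : K, P {ω | x ∈ 𝒜 ω} ≤ ENNReal.ofReal (C * Height.mulHeight₁ x ^ (-γ))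

/-- All points `P = φ` of the curve over `x`, defined over number fields `L ⊇ K`, and all finite sets
`S` of primes satisfy
`m_S(F, P) + (degree - θ) * h(x) ≤ d(L) + ε h(x) + ∑_{p ∈ S} log p + c`. -/
def Vojta (K : Type) [Field K] [NumberField K] {A : Type} [CommRing A] [Algebra ℚ A]
    [Algebra ℚ[X] A] {q : ℕ} (u : Fin q → ℕ) (y : ∀ j, Fin (u j + 1) → A) (θ ε c : ℝ)
    (x : K) : Prop :=
  ∀ (L : Type) (_ : Field L) (_ : NumberField L) (_ : Algebra K L) (φ : A →+* L) (S : Finset ℕ),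
    φ (coord A) = algebraMap K L x → (∀ p ∈ S, p.Prime) →
    proximity S u y L φ + (degree u y - θ) * height x ≤
      logDisc L + ε * height x + ∑ p ∈ S, Real.log p + c

lemma height_nonneg {K : Type} [Field K] [NumberField K] (x : K) : 0 ≤ height x := by
  have h1 := AllFieldsHeightInequality.height_eq x
  have h2 : 0 ≤ Real.log (Height.mulHeight₁ x) := Real.log_nonneg (Height.one_le_mulHeight₁ x)
  have h3 : (0 : ℝ) < Module.finrank ℚ K := by exact_mod_cast Module.finrank_pos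
  rw [h1] at h2
  exact (mul_nonneg_iff_of_pos_left h3).1 h2

lemma Vojta.mono {K : Type} [Field K] [NumberField K] {A : Type} [CommRing A] [Algebra ℚ A]
    [Algebra ℚ[X] A] {q : ℕ} {u : Fin q → ℕ} {y : ∀ j, Fin (u j + 1) → A} {θ ε ε' c c' : ℝ}
    {x : K} (hε : ε ≤ ε') (hc : c ≤ c') (h : Vojta K u y θ ε c x) : Vojta K u y θ ε' c' x := by
  intro L i1 i2 i3 φ S h1 h2
  have h3 := h L i1 i2 i3 φ S h1 h2
  have h4 := mul_le_mul_of_nonneg_right hε (height_nonneg x)
  linarith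

/-- **Vojta's height inequality on the fibres over random points.** -/
theorem result (A : Type) [CommRing A] [IsDedekindDomain A] [Algebra ℚ A] [Algebra ℚ[X] A]
    [IsScalarTower ℚ ℚ[X] A] [Module.Finite ℚ[X] A] [FaithfulSMul ℚ[X] A]
    (q : ℕ) (hq : 3 ≤ q) (a : Fin q → ℚ) (ha : Function.Injective a)
    (u : Fin q → ℕ) (y : ∀ j, Fin (u j + 1) → A)
    (hy0 : ∀ j, y j 0 = coord A - algebraMap ℚ[X] A (C (a j)))
    (hyr : ∀ j i, y j i ∈ (Ideal.span {coord A - algebraMap ℚ[X] A (C (a j))}).radical)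
    (θ γ : ℝ) (hθ0 : 0 ≤ θ) (hθ2 : θ ≤ 2) (hγ : 2 - 2 * θ / q ≤ γ)
    (K : Type) [Field K] [NumberField K] (Ω : Type) [MeasurableSpace Ω] (P : Measure Ω)
    (𝒜 : Ω → Set K) (C₀ : ℝ) (hs : Sparse P 𝒜 γ C₀) :
    (∀ᵐ ω ∂P, ∀ ε c : ℝ, 0 < ε → {x : K | x ∈ 𝒜 ω ∧ ¬ Vojta K u y θ ε c x}.Finite) ∧
    ∀ ε c : ℝ, 0 < ε → ε ≤ 1 → ∃ D : ℝ, ∀ Y : ℝ, 1 ≤ Y →
      P {ω | ∃ x : K, x ∈ 𝒜 ω ∧ Y ≤ Height.mulHeight₁ x ∧ (∀ j, x ≠ (a j : K)) ∧
        ¬ Vojta K u y θ ε c x} ≤ ENNReal.ofReal (D * Y ^ (-(ε / (4 * q)))) := by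
  classical
  have hq0 : (3 : ℝ) ≤ q := by exact_mod_cast hq
  have hqp : (0 : ℝ) < q := by linarith
  have hn0 : (0 : ℝ) < Module.finrank ℚ K := by exact_mod_cast Module.finrank_pos
  have hθq : 2 * θ / q ≤ 4 / 3 := by
    rw [div_le_div_iff₀ hqp (by norm_num)]
    nlinarith
  have key : ∀ ε c : ℝ, 0 < ε → ε ≤ 1 →
      (∀ᵐ ω ∂P, {x : K | ((∀ j, x ≠ (a j : K)) ∧ ¬ Vojta K u y θ ε c x) ∧ x ∈ 𝒜 ω}.Finite) ∧
      ∃ D : ℝ, ∀ Y : ℝ, 1 ≤ Y →
        P {ω | ∃ x : K, ((∀ j, x ≠ (a j : K)) ∧ ¬ Vojta K u y θ ε c x) ∧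
          Y ≤ Height.mulHeight₁ x ∧ x ∈ 𝒜 ω} ≤ ENNReal.ofReal (D * Y ^ (-(ε / (4 * q)))) := by
    intro ε c hε hε1
    obtain ⟨⟨C₁, hC₁, h⟩, -⟩ := AllFieldsHeightInequality.result.1 A q hq a ha u y hy0 hyr θ ε c
      hθ0 hθ2 hε hε1
    have hεq : ε / (2 * q) ≤ 1 / 6 := by
      rw [div_le_div_iff₀ (by positivity) (by norm_num)]
      nlinarith
    have hεq0 : 0 < ε / (4 * q) := by positivity
    have hεq2 : ε / (2 * q) = 2 * (ε / (4 * q)) := by
      field_simp
      ring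
    refine Pool.Agent.R909.RS.single (P := P)
      (nm := (Height.mulHeight₁ : K → ℝ)) (A := 𝒜) (γ := γ) (C := C₀) (fun x _ => hs x)
      (Q := fun x => (∀ j, x ≠ (a j : K)) ∧ ¬ Vojta K u y θ ε c x)
      (H := fun x => Height.mulHeight₁ x)
      (fun z _ => Height.one_le_mulHeight₁ z) (u := fun z => z) (K := 1) one_pos
      (fun z _ => by rw [one_mul]) (by linarith) (p := 2 - 2 * θ / q - ε / (4 * q))
      (η := ε / (4 * q)) hεq0.le (by linarith) ?_
    refine Pool.Agent.R479.DA.summable_heights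
      (fun x : {x : K // (∀ j, x ≠ (a j : K)) ∧ ¬ Vojta K u y θ ε c x} =>
        Height.mulHeight₁ x.1)
      (fun x => Height.one_le_mulHeight₁ x.1) (s := 2 - 2 * θ / q - ε / (2 * q))
      (p := 2 - 2 * θ / q - ε / (4 * q)) (C := C₁ ^ Module.finrank ℚ K)
      (by linarith) (by linarith) (fun X hX => ?_)
    have hX0 : 0 < X := by linarith
    obtain ⟨B, hB⟩ : ∃ B : ℝ, B = X ^ (1 / (Module.finrank ℚ K : ℝ)) := ⟨_, rfl⟩
    have hB1 : 1 ≤ B := by
      rw [hB]
      exact Real.one_le_rpow hX (by positivity)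
    obtain ⟨h1, h2⟩ := h K B hB1
    have hsub : Exceptions K a u y θ ε c B ⊆ Elts K B := fun x hx => hx.1
    have hmaps : Set.MapsTo Subtype.val
        {x : {x : K // (∀ j, x ≠ (a j : K)) ∧ ¬ Vojta K u y θ ε c x} |
          Height.mulHeight₁ x.1 ≤ X} (Exceptions K a u y θ ε c B) := by
      rintro ⟨x, hx1, hx2⟩ hx3
      unfold Vojta at hx2
      push Not at hx2
      obtain ⟨L, i1, i2, i3, φ, S, h3, h4, h5⟩ := hx2
      refine ⟨?_, hx1, L, i1, i2, i3, φ, S, h3, h4, h5⟩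
      have h6 : Height.mulHeight₁ x ≤ X := hx3
      have h7 : Real.log (Height.mulHeight₁ x) ≤ Real.log X :=
        Real.log_le_log (by linarith [Height.one_le_mulHeight₁ x]) h6
      rw [AllFieldsHeightInequality.height_eq] at h7
      change height x ≤ Real.log B
      rw [hB, Real.log_rpow hX0, one_div, inv_mul_eq_div, le_div_iff₀ hn0]
      linarith
    have hinj : Set.InjOn Subtype.val
        {x : {x : K // (∀ j, x ≠ (a j : K)) ∧ ¬ Vojta K u y θ ε c x} |
          Height.mulHeight₁ x.1 ≤ X} := Subtype.val_injective.injOn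
    refine ⟨(h1.subset hsub).of_injOn hmaps hinj, ?_⟩
    have h3 := Set.ncard_le_ncard_of_injOn _ hmaps hinj (h1.subset hsub)
    have h4 : (C₁ * B ^ (2 - 2 * θ / q - ε / (2 * q))) ^ Module.finrank ℚ K =
        C₁ ^ Module.finrank ℚ K * X ^ (2 - 2 * θ / q - ε / (2 * q)) := by
      rw [mul_pow, ← Real.rpow_natCast (B ^ _), ← Real.rpow_mul (by linarith), hB,
        ← Real.rpow_mul hX0.le]
      congr 2
      field_simp
    rw [h4] at h2
    exact le_trans (by exact_mod_cast h3) h2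
  constructor
  · have h1 : ∀ᵐ ω ∂P, ∀ m k : ℕ, {x : K | ((∀ j, x ≠ (a j : K)) ∧
        ¬ Vojta K u y θ (1 / ((m : ℝ) + 1)) (-(k : ℝ)) x) ∧ x ∈ 𝒜 ω}.Finite := by
      rw [ae_all_iff]
      intro m
      rw [ae_all_iff]
      intro k
      refine (key (1 / ((m : ℝ) + 1)) (-(k : ℝ)) (by positivity) ?_).1
      rw [div_le_one (by positivity)]
      have : (0 : ℝ) ≤ (m : ℝ) := Nat.cast_nonneg m
      linarith
    filter_upwards [h1] with ω hω ε c hε
    obtain ⟨m, hm⟩ := exists_nat_one_div_lt hε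
    obtain ⟨k, hk⟩ := exists_nat_ge (-c)
    refine ((hω m k).union (Set.finite_range fun j => (a j : K))).subset ?_
    rintro x ⟨h2, h3⟩
    by_cases h4 : ∀ j, x ≠ (a j : K)
    · exact Or.inl ⟨⟨h4, fun h5 => h3 (Vojta.mono hm.le (by linarith) h5)⟩, h2⟩
    · push Not at h4
      obtain ⟨j, hj⟩ := h4
      exact Or.inr ⟨j, hj.symm⟩
  · intro ε c hε hε1
    obtain ⟨-, D, hD⟩ := key ε c hε hε1
    refine ⟨D, fun Y hY => le_trans (measure_mono ?_) (hD Y hY)⟩
    rintro ω ⟨x, h1, h2, h3, h4⟩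
    exact ⟨x, ⟨h3, h4⟩, h2, h1⟩

end Pool.Agent.Results.MP_6f1c57_nt.RandomPoints
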