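import Pool.Agent.Results.MP_6f1c57_nt.ProximityWindows
import Pool.Agent.R482.ST.Star

/-!
# The height inequality with proximity function above all numbers of degree `r` of height near powers, orbits, …

Let `f_n`, `n = 0, 1, 2, …`, be positive functions on `(a, ∞)`, `a ≥ 0`, such that `f_n(t) / t` is nondecreasing, and such
that the sequence `f_n(t)` has exponent of convergence at most `τ` for each `t > a`: for instance `f_n(t) = t ^ (v_n)` for
exponents `v_n ≥ 1` (`τ = 0`; all powers, the powers `t ^ (3 ^ n)` of Mills, …), the orbits `f_n(t) = g (g (⋯ g (t)))` of any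
map `g` with `g(t) > t` and `g(t) / t` nondecreasing (`τ = 0`; for instance of `t² + c`), and `f_n(t) = v_n t`.
For a curve which is finite over the `t`-line, divisors above `q ≥ 3` rational points, `r ≥ 2`, `0 ≤ κ ≤ q` and `θ < 1`: for
all `α > a` outside a set of Hausdorff dimension at most `(e / (r + 1) + τ) / (1 - θ)`, where `e < r + 1` is explicit, and all
`C₀`, `C₁`, for all but finitely many `k` the inequality `m_S(D, P) + (degree - κ) h(x) ≤ d(L) + ∑_{p ∈ S} log p - C₀` holds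
for ALL algebraic numbers `x` of degree `r` with `|H(x) ^ (r (r + 1)) - f_k(α)| ≤ C₁ f_k(α) ^ θ`, ALL points `P` of the curve
above `x`, over any number field `L`, and ALL finite sets `S` of primes.
-/

set_option autoImplicit false

namespace Pool.Agent.Results.MP_6f1c57_nt.StarshapedProximity

open Polynomial IsDedekindDomain NumberField
open ProximityAllCurves (height coord proximity logDisc degree alpha exponent exceptional)
open ProximityWindows (Val count expo_lt)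

/-- the functions `f n` are positive on `(a, ∞)`, `a ≥ 0`, and `f n x / x` is nondecreasing there -/
def Starshaped (a : ℝ) (f : ℕ → ℝ → ℝ) : Prop :=
  0 ≤ a ∧ ∀ n : ℕ, ∀ x y : ℝ, a < x → x ≤ y → 0 < f n x ∧ f n x / x ≤ f n y / y

/-- for each `x > a` the exponent of convergence of the sequence `f n x` is at most `τ` -/
def ExpLe (a : ℝ) (f : ℕ → ℝ → ℝ) (τ : ℝ) : Prop :=
  ∀ x : ℝ, a < x → ∀ t : ℝ, τ < t → Summable (fun n : ℕ => (f n x) ^ (-t))

/-- **Theorem.** For `η > 0` there is `c ≥ 1` such that the following holds. Let `A` be a Dedekind domain, finite over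
`ℚ[t]` and containing it, let `r ≥ 2`, let `a_1, …, a_q` be `q ≥ 3` distinct rational numbers, let
`y_{j 0} = t - a_j, y_{j 1}, …` be elements of the radical of the ideal `(t - a_j)` and `κ ≤ q`. (For `κ ≥ 0` the exponent
`e = exponent (alpha r c η) r q κ` is smaller than `r + 1`.) Let `w` be starshaped functions on `(a₀, ∞)` of exponent of
convergence at most `τ ≥ 0` and `θ < 1`. There is a set `E` of Hausdorff dimension at most
`(max e 0 / (r + 1) + τ) / (1 - θ)` such that for each `α > a₀` outside `E` and all `C₀`, `C₁`, for all but finitely many `k`: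
for ALL algebraic numbers `x` of degree `r` (with irreducible integral polynomial `f` and height `H = exp (height f)`) with
`|H ^ (r (r + 1)) - w_k(α)| ≤ C₁ w_k(α) ^ θ`, ALL points `P = φ` of the curve above `x` over any number field `L` and ALL finite
sets `S` of primes `m_S(F, P) + (degree - κ) h(x) ≤ d(L) + ∑_{p ∈ S} log p - C₀`. The functions `v_n x`, `v_n > 0`, are starshaped on `(0, ∞)`, of exponent `τ` if `v` has exponent of convergence at most
`τ`; the functions `x ^ (v_n)`, `v_n ≥ 1`, are starshaped on `(1, ∞)`, of exponent `0` if the sums of `exp (-t v_n)` converge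
for `t > 0`; and the iterates of a map `g` with `g(x) > x` for `x > a` and `g(x) / x` nondecreasing are starshaped on
`(a, ∞)`, of exponent `0`. -/
theorem result :
    (∀ η : ℝ, 0 < η → ∃ c : ℝ, 1 ≤ c ∧
      ∀ (A : Type) [CommRing A] [IsDedekindDomain A] [Algebra ℚ A] [Algebra ℚ[X] A]
        [IsScalarTower ℚ ℚ[X] A] [Module.Finite ℚ[X] A] [FaithfulSMul ℚ[X] A]
        (r q : ℕ), 2 ≤ r → 3 ≤ q → ∀ a : Fin q → ℚ, Function.Injective a →
      ∀ (u : Fin q → ℕ) (y : ∀ j, Fin (u j + 1) → A),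
      (∀ j, y j 0 = coord A - algebraMap ℚ[X] A (C (a j))) →
      (∀ j i, y j i ∈ (Ideal.span {coord A - algebraMap ℚ[X] A (C (a j))}).radical) →
      ∀ κ : ℝ, κ ≤ q →
      (0 ≤ κ → exponent (alpha r c η) r q κ < r + 1) ∧
      ∀ (a₀ : ℝ) (w : ℕ → ℝ → ℝ) (τ θ : ℝ), Starshaped a₀ w → 0 ≤ τ → ExpLe a₀ w τ → θ < 1 →
      ∃ E : Set ℝ, dimH E ≤ ENNReal.ofReal ((max (exponent (alpha r c η) r q κ) 0 / (r + 1) + τ) / (1 - θ)) ∧
        ∀ α : ℝ, a₀ < α → α ∉ E → ∀ C₀ C₁ : ℝ, ∃ k₀ : ℕ, ∀ k : ℕ, k₀ ≤ k → ∀ (x : ℂ) (f : ℤ[X]),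
          Irreducible f → f.natDegree = r → aeval x f = 0 →
          |Real.exp (height f) ^ (r * (r + 1)) - w k α| ≤ C₁ * (w k α) ^ θ →
            ∀ (L : IntermediateField ℚ ℂ) [NumberField L] (φ : A →+* L) (S : Finset ℕ),
              (φ (coord A) : ℂ) = x → (∀ p ∈ S, p.Prime) →
              proximity S u y L φ + (degree u y - κ) * height f ≤ logDisc L + ∑ p ∈ S, Real.log p - C₀) ∧
    (∀ (v : ℕ → ℝ) (τ : ℝ), (∀ n, 0 < v n) → (∀ t : ℝ, τ < t → Summable (fun n : ℕ => (v n) ^ (-t))) →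
      Starshaped 0 (fun n x => v n * x) ∧ ExpLe 0 (fun n x => v n * x) τ) ∧
    (∀ v : ℕ → ℝ, (∀ n, 1 ≤ v n) → (∀ t : ℝ, 0 < t → Summable fun n : ℕ => Real.exp (-(t * v n))) →
      Starshaped 1 (fun n x => x ^ (v n)) ∧ ExpLe 1 (fun n x => x ^ (v n)) 0) ∧
    (∀ (a : ℝ) (g : ℝ → ℝ), 0 ≤ a → (∀ x y : ℝ, a < x → x ≤ y → g x / x ≤ g y / y) → (∀ x : ℝ, a < x → x < g x) →
      Starshaped a (fun n x => g^[n] x) ∧ ExpLe a (fun n x => g^[n] x) 0) := by
  refine ⟨fun η hη => ?_, Pool.Agent.R482.ST.ex_mul, Pool.Agent.R482.ST.ex_pow,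
    Pool.Agent.R482.ST.ex_orbit⟩
  obtain ⟨c, hc, hmain⟩ := ProximityAllCurves.result η hη
  refine ⟨c, hc, fun A _ _ _ _ _ _ _ r q hr hq a ha u y hy0 hy κ hκ =>
    ⟨fun h0 => expo_lt hr hq hc h0, fun a₀ w τ θ hw0 hτ hE hθ1 => ?_⟩⟩
  have hall : ∀ j : ℕ, ∃ E : Set ℝ,
      dimH E ≤ ENNReal.ofReal ((max (exponent (alpha r c η) r q κ) 0 / (r + 1) + τ) / (1 - θ)) ∧
      ∀ α : ℝ, a₀ < α → α ∉ E → ∀ C₁ : ℝ, ∃ n0 : ℕ, ∀ k : ℕ, n0 ≤ k → ∀ z ∈ Val u y r κ (-(j : ℝ)),
        C₁ * (w k α) ^ θ < |z - w k α| := fun j =>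
    Pool.Agent.R482.ST.windows (Val u y r κ (-(j : ℝ))) (fun z => z) hw0 hτ hE
      (div_nonneg (le_max_right _ _) (by positivity)) hθ1
      (fun ε hε => count u y hr κ (-(j : ℝ)) _
        (fun δ hδ => hmain A r q hr hq a ha u y hy0 hy κ (-(j : ℝ)) δ hκ hδ) ε hε)
  choose G hG1 hG2 using hall
  refine ⟨⋃ j, G j, ?_, fun α hα hαE C₀ C₁ => ?_⟩
  · rw [dimH_iUnion]
    exact iSup_le hG1
  · obtain ⟨j, hj⟩ := exists_nat_ge C₀
    obtain ⟨k₀, hk⟩ := hG2 j α hα (fun h => hαE (Set.mem_iUnion.2 ⟨j, h⟩)) C₁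
    refine ⟨k₀, fun k hk1 x f hf hfr hfx hw L hL φ S hφ hS => ?_⟩
    by_contra hcon
    push Not at hcon
    refine absurd (hk k hk1 _ ⟨f, x, ⟨hf, hfr, hfx, L, hL, φ, S, hφ, hS, ?_⟩, rfl⟩) (not_lt.2 hw)
    linarith

end Pool.Agent.Results.MP_6f1c57_nt.StarshapedProximity
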